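import Pool.Agent.W393.LR.Stmts

set_option autoImplicit false

namespace Pool.Agent.W402.LR

open Pool.Agent.W393.LR

section basic

variable {G : Type} [Group G]

lemma mem_tr {g x : G} {X : Set G} : x ∈ tr g X ↔ g⁻¹ * x ∈ X := Iff.rfl

lemma tr_tr (g h : G) (X : Set G) : tr g (tr h X) = tr (g * h) X := by
  ext x
  simp only [mem_tr, mul_inv_rev, mul_assoc]

lemma tr_one (X : Set G) : tr 1 X = X := by
  ext x
  simp only [mem_tr, inv_one, one_mul]

lemma tr_compl (g : G) (X : Set G) : tr g Xᶜ = (tr g X)ᶜ := rfl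

lemma tr_mono {g : G} {A B : Set G} (h : A ⊆ B) : tr g A ⊆ tr g B := fun _ hx => h hx

lemma tr_subset_iff {g : G} {A B : Set G} : tr g A ⊆ tr g B ↔ A ⊆ B := by
  refine ⟨fun h => ?_, tr_mono⟩
  have := tr_mono (g := g⁻¹) h
  simpa only [tr_tr, inv_mul_cancel, tr_one] using this

lemma tr_subset_iff' {g : G} {A B : Set G} : tr g A ⊆ B ↔ A ⊆ tr g⁻¹ B := by
  rw [← tr_subset_iff (g := g⁻¹), tr_tr, inv_mul_cancel, tr_one]

lemma tr_inj {g : G} {A B : Set G} : tr g A = tr g B ↔ A = B := by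
  constructor
  · intro h
    exact Set.Subset.antisymm (tr_subset_iff.mp h.subset) (tr_subset_iff.mp h.superset)
  · rintro rfl; rfl

variable {X : Set G}

lemma self_mem : X ∈ Hs X := ⟨1, Or.inl (tr_one X).symm⟩

lemma tr_mem {Y : Set G} (hY : Y ∈ Hs X) (g : G) : tr g Y ∈ Hs X := by
  obtain ⟨h, rfl | rfl⟩ := hY
  · exact ⟨g * h, Or.inl (tr_tr _ _ _)⟩
  · refine ⟨g * h, Or.inr ?_⟩
    rw [tr_compl, tr_tr]

lemma compl_mem {Y : Set G} (hY : Y ∈ Hs X) : Yᶜ ∈ Hs X := by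
  obtain ⟨h, rfl | rfl⟩ := hY
  · exact ⟨h, Or.inr rfl⟩
  · exact ⟨h, Or.inl (compl_compl _)⟩

omit [Group G] in
lemma nested_symm {A B : Set G} (h : Nested A B) : Nested B A := by
  rcases h with h | h | h | h
  · exact Or.inr (Or.inl h)
  · exact Or.inl h
  · exact Or.inr (Or.inr (Or.inl (Set.subset_compl_comm.mp h)))
  · exact Or.inr (Or.inr (Or.inr (Set.compl_subset_comm.mp h)))

omit [Group G] in
lemma nested_compl {A B : Set G} (h : Nested A B) : Nested Aᶜ B := by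
  rcases h with h | h | h | h
  · exact Or.inr (Or.inr (Or.inr (by rwa [compl_compl])))
  · exact Or.inr (Or.inr (Or.inl (Set.compl_subset_compl.mpr h)))
  · exact Or.inr (Or.inl (Set.subset_compl_comm.mp h))
  · exact Or.inl h

lemma nested_tr {A B : Set G} (g : G) (h : Nested A B) : Nested (tr g A) (tr g B) := by
  rcases h with h | h | h | h
  · exact Or.inl (tr_mono h)
  · exact Or.inr (Or.inl (tr_mono h))
  · exact Or.inr (Or.inr (Or.inl (tr_mono h)))
  · exact Or.inr (Or.inr (Or.inr (tr_mono h)))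

lemma nested_of_mem (hX : HSys X) {Y Y' : Set G} (hY : Y ∈ Hs X) (hY' : Y' ∈ Hs X) :
    Nested Y Y' := by
  have key : ∀ g h : G, Nested (tr g X) (tr h X) := by
    intro g h
    have := nested_tr h (hX.nest (h⁻¹ * g))
    rwa [tr_tr, mul_inv_cancel_left] at this
  obtain ⟨g, rfl | rfl⟩ := hY <;> obtain ⟨h, rfl | rfl⟩ := hY'
  · exact key g h
  · exact nested_symm (nested_compl (nested_symm (key g h)))
  · exact nested_compl (key g h)
  · exact nested_compl (nested_symm (nested_compl (nested_symm (key g h))))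

lemma tr_nonempty {A : Set G} (h : A.Nonempty) (g : G) : (tr g A).Nonempty := by
  obtain ⟨x, hx⟩ := h
  exact ⟨g * x, by simpa [mem_tr] using hx⟩

lemma nonempty_of_mem (hX : HSys X) {Y : Set G} (hY : Y ∈ Hs X) : Y.Nonempty := by
  obtain ⟨g, rfl | rfl⟩ := hY
  · exact tr_nonempty hX.ne g
  · exact tr_nonempty hX.ne' g

lemma fin_sep (hX : HSys X) (a b : G) : {Y | Y ∈ Hs X ∧ a ∈ Y ∧ b ∉ Y}.Finite := by
  apply (((hX.fin a b).image (fun g => tr g X)).union
    ((hX.fin b a).image (fun g => (tr g X)ᶜ))).subset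
  rintro Y ⟨⟨g, rfl | rfl⟩, ha, hb⟩
  · exact Or.inl ⟨g, ⟨ha, hb⟩, rfl⟩
  · refine Or.inr ⟨g, ⟨?_, ha⟩, rfl⟩
    simpa [mem_tr] using hb

lemma stab_finite (hX : HSys X) {Y : Set G} (hY : Y ∈ Hs X) : {g : G | tr g Y = Y}.Finite := by
  have key : ∀ h : G, {g : G | tr g (tr h X) = tr h X}.Finite := by
    intro h
    obtain ⟨a, ha⟩ := tr_nonempty hX.ne h
    obtain ⟨b, hb⟩ := tr_nonempty hX.ne' h
    apply ((hX.fin a b).preimage (f := fun g => g * h)
      (Set.injOn_of_injective (mul_left_injective h))).subset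
    intro g hg
    change tr g (tr h X) = tr h X at hg
    rw [tr_tr] at hg
    rw [← hg] at ha
    rw [tr_compl, ← hg] at hb
    exact ⟨ha, hb⟩
  obtain ⟨h, rfl | rfl⟩ := hY
  · exact key h
  · apply (key h).subset
    intro g hg
    change tr g (tr h X)ᶜ = (tr h X)ᶜ at hg
    rw [tr_compl, compl_inj_iff] at hg
    exact hg

lemma tr_image_oo (g : G) (Y : Set G) : tr g '' oo X Y = oo X (tr g Y) := by
  ext Z
  constructor
  · rintro ⟨Z, ⟨hZ, h⟩, rfl⟩
    refine ⟨tr_mem hZ g, ?_⟩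
    rcases h with h | h
    · exact Or.inl (tr_mono h)
    · refine Or.inr ⟨tr_mono h.1, fun h' => h.2 ?_⟩
      rw [← tr_compl, tr_subset_iff] at h'
      exact h'
  · rintro ⟨hZ, h⟩
    refine ⟨tr g⁻¹ Z, ⟨tr_mem hZ _, ?_⟩, by rw [tr_tr, mul_inv_cancel, tr_one]⟩
    rcases h with h | h
    · exact Or.inl (tr_subset_iff'.mp h)
    · refine Or.inr ⟨?_, fun h' => h.2 ?_⟩
      · exact tr_subset_iff'.mp h.1
      · rw [tr_subset_iff', inv_inv] at h'
        exact h'

lemma tr_image_mm (g : G) (Y : Set G) : tr g '' mm X Y = mm X (tr g Y) := by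
  ext Z
  constructor
  · rintro ⟨Z, ⟨hZ, h⟩, rfl⟩
    refine ⟨tr_mem hZ g, ?_⟩
    rcases h with h | h
    · exact Or.inl (tr_mono h)
    · exact Or.inr (tr_mono h)
  · rintro ⟨hZ, h⟩
    refine ⟨tr g⁻¹ Z, ⟨tr_mem hZ _, ?_⟩, by rw [tr_tr, mul_inv_cancel, tr_one]⟩
    rcases h with h | h
    · exact Or.inl (tr_subset_iff'.mp h)
    · exact Or.inr (tr_subset_iff'.mp h)

lemma mm_compl (Y : Set G) : mm X Yᶜ = mm X Y := by
  ext Z
  simp only [mm, Set.mem_ofPred_eq, compl_compl]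
  tauto

end basic

/-! ### Finite index subgroups fix no vertex -/

lemma infinite_of_mem {G : Type} [Group G] {X : Set G} (h1 : X.Infinite) (h2 : Xᶜ.Infinite)
    {Y : Set G} (hY : Y ∈ Hs X) : Y.Infinite := by
  have key : ∀ (A : Set G) (g : G), A.Infinite → (tr g A).Infinite := by
    intro A g hA hf
    apply hA
    apply (hf.preimage (f := fun x => g * x)
      (Set.injOn_of_injective (mul_right_injective g))).subset
    intro x hx
    simpa [mem_tr] using hx
  obtain ⟨g, rfl | rfl⟩ := hY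
  · exact key _ _ h1
  · exact key _ _ h2

theorem nofix : S_NOFIX := by
  intro G _ X hX h1 h2 N hN Y hY
  constructor
  · by_contra hcon
    have hcon' : ∀ n ∈ N, tr n '' oo X Y = oo X Y := by
      intro n hn
      by_contra h
      exact hcon ⟨n, hn, h⟩
    have hself : Y ∈ oo X Y := ⟨hY, Or.inl subset_rfl⟩
    have hmem : ∀ n ∈ N, tr n Y ∈ oo X Y := by
      intro n hn
      rw [← hcon' n hn]
      exact ⟨Y, hself, rfl⟩
    have hdich : ∀ n ∈ N, tr n Y = Y ∨ Yᶜ ⊆ tr n Y := by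
      intro n hn
      rcases (hmem n hn).2 with h | h
      · rcases (hmem n⁻¹ (N.inv_mem hn)).2 with h' | h'
        · left
          apply Set.Subset.antisymm _ h
          rwa [tr_subset_iff']
        · right
          have h3 := h'.1
          rw [← tr_subset_iff', tr_compl, Set.compl_subset_comm] at h3
          exact h3
      · exact Or.inr h.1
    have hD : (Yᶜ).Infinite := infinite_of_mem h1 h2 (compl_mem hY)
    have := hD.to_subtype
    obtain ⟨q, hq⟩ := Finite.exists_infinite_fiber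
      (fun x : (Yᶜ : Set G) => (QuotientGroup.mk (x : G)⁻¹ : G ⧸ N))
    obtain ⟨x₀, hx₀⟩ := (Set.infinite_coe_iff.mp hq).nonempty
    have hfin := (stab_finite hX hY).preimage (f := fun x : (Yᶜ : Set G) => (x : G) * (x₀ : G)⁻¹)
      (Set.injOn_of_injective (fun a b h => Subtype.ext (mul_right_cancel h)))
    apply (Set.infinite_coe_iff.mp hq)
    apply hfin.subset
    intro x hx
    simp only [Set.mem_preimage, Set.mem_singleton_iff] at hx hx₀
    have hn : (x : G) * (x₀ : G)⁻¹ ∈ N := by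
      have := QuotientGroup.eq.mp (hx.trans hx₀.symm)
      simpa using this
    rcases hdich _ hn with h | h
    · exact h
    · exfalso
      have h3 := h x.2
      rw [mem_tr] at h3
      apply x₀.2
      simpa using h3
  · by_contra hcon
    have hcon' : ∀ n ∈ N, tr n '' mm X Y = mm X Y := by
      intro n hn
      by_contra h
      exact hcon ⟨n, hn, h⟩
    have hdich : ∀ n ∈ N, tr n Y = Y ∨ tr n Y = Yᶜ := by
      intro n hn
      have ha : tr n Y ∈ mm X Y := by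
        rw [← hcon' n hn]
        exact ⟨Y, ⟨hY, Or.inl subset_rfl⟩, rfl⟩
      have hb : (tr n Y)ᶜ ∈ mm X Y := by
        rw [← hcon' n hn]
        exact ⟨Yᶜ, ⟨compl_mem hY, Or.inr subset_rfl⟩, rfl⟩
      rcases ha.2 with ha | ha <;> rcases hb.2 with hb | hb
      · obtain ⟨x, hx⟩ := nonempty_of_mem hX hY
        exact absurd (ha hx) (hb hx)
      · left
        exact Set.Subset.antisymm (Set.compl_subset_compl.mp hb) ha
      · right
        exact Set.Subset.antisymm (Set.subset_compl_comm.mp hb) ha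
      · obtain ⟨x, hx⟩ := nonempty_of_mem hX (compl_mem hY)
        exact absurd (ha hx) (hb hx)
    have hs := stab_finite hX hY
    have hs2 : {n : G | tr n Y = Yᶜ}.Finite := by
      rcases Set.eq_empty_or_nonempty {n : G | tr n Y = Yᶜ} with h | ⟨n₀, hn₀⟩
      · rw [h]; exact Set.finite_empty
      · apply (hs.image (fun n => n₀ * n)).subset
        intro n hn
        refine ⟨n₀⁻¹ * n, ?_, by group⟩
        change tr (n₀⁻¹ * n) Y = Y
        change tr n Y = Yᶜ at hn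
        change tr n₀ Y = Yᶜ at hn₀
        rw [← tr_tr, hn, ← hn₀, tr_tr, inv_mul_cancel, tr_one]
    have hNf : (N : Set G).Finite := (hs.union hs2).subset (fun n hn => hdich n hn)
    have : Finite N := hNf
    have : Finite (G ⧸ N) := inferInstance
    have : Finite G := Finite.of_equiv _ (Subgroup.groupEquivQuotientProdSubgroup (s := N)).symm
    exact h1 (Set.toFinite X)

/-! ### Finite subgroups fix a vertex or a midpoint -/

section fix

variable {G : Type} [Group G] {X : Set G}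

/-- number of elements of `C` in `Y` -/
noncomputable def mu (C : Subgroup G) (Y : Set G) : ℕ := ((C : Set G) ∩ Y).ncard

/-- ties -/
def TT (X : Set G) (C : Subgroup G) : Set (Set G) := {Y | Y ∈ Hs X ∧ mu C Y = mu C Yᶜ}

/-- number of ties inside `Y` -/
noncomputable def ka (X : Set G) (C : Subgroup G) (Y : Set G) : ℕ := {Y' ∈ TT X C | Y' ⊆ Y}.ncard

/-- the vote -/
noncomputable def nu (X : Set G) (C : Subgroup G) (Y : Set G) : ℕ :=
  mu C Y * ((TT X C).ncard + 1) + ka X C Y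

variable (C : Subgroup G) [Finite C]

lemma finC : (C : Set G).Finite := Set.toFinite _

lemma mu_mono {Y Y' : Set G} (h : Y ⊆ Y') : mu C Y ≤ mu C Y' :=
  Set.ncard_le_ncard (Set.inter_subset_inter_right _ h) ((finC C).inter_of_left _)

lemma mu_add (Y : Set G) : mu C Y + mu C Yᶜ = (C : Set G).ncard := by
  unfold mu
  rw [← Set.ncard_union_eq _ ((finC C).inter_of_left _) ((finC C).inter_of_left _)]
  · rw [← Set.inter_union_distrib_left, Set.union_compl_self, Set.inter_univ]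
  · exact Set.disjoint_left.mpr (fun x hx hx' => hx'.2 hx.2)

lemma card_pos : 0 < (C : Set G).ncard :=
  (Set.ncard_pos (finC C)).mpr ⟨1, C.one_mem⟩

omit [Finite C] in
lemma mu_tr {c : G} (hc : c ∈ C) (Y : Set G) : mu C (tr c Y) = mu C Y := by
  unfold mu
  have : (C : Set G) ∩ tr c Y = (fun x => c * x) '' ((C : Set G) ∩ Y) := by
    ext x
    constructor
    · rintro ⟨hx, hxY⟩
      exact ⟨c⁻¹ * x, ⟨C.mul_mem (C.inv_mem hc) hx, hxY⟩, by simp⟩
    · rintro ⟨x, ⟨hx, hxY⟩, rfl⟩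
      exact ⟨C.mul_mem hc hx, by simpa [mem_tr] using hxY⟩
  rw [this]
  exact Set.ncard_image_of_injective _ (mul_right_injective c)

lemma pos_of_mu {Y : Set G} (h : 0 < mu C Y) : ∃ c ∈ C, c ∈ Y := by
  obtain ⟨c, hc, hcY⟩ := (Set.ncard_pos ((finC C).inter_of_left _)).mp h
  exact ⟨c, hc, hcY⟩

lemma TT_finite (hX : HSys X) : (TT X C).Finite := by
  have : (⋃ c ∈ (C : Set G), ⋃ c' ∈ (C : Set G), {Y | Y ∈ Hs X ∧ c ∈ Y ∧ c' ∉ Y}).Finite := by
    apply Set.Finite.biUnion (finC C)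
    intro c _
    apply Set.Finite.biUnion (finC C)
    intro c' _
    exact fin_sep hX c c'
  apply this.subset
  rintro Y ⟨hY, h⟩
  have h1 := mu_add C Y
  have h2 := card_pos C
  obtain ⟨c, hc, hcY⟩ := pos_of_mu C (Y := Y) (by omega)
  obtain ⟨c', hc', hcY'⟩ := pos_of_mu C (Y := Yᶜ) (by omega)
  simp only [Set.mem_iUnion]
  exact ⟨c, hc, c', hc', hY, hcY, hcY'⟩

lemma tr_TT {c : G} (hc : c ∈ C) {Y : Set G} (hY : Y ∈ TT X C) : tr c Y ∈ TT X C := by
  refine ⟨tr_mem hY.1 c, ?_⟩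
  rw [← tr_compl, mu_tr C hc, mu_tr C hc]
  exact hY.2

omit [Finite C] in
lemma compl_TT {Y : Set G} (hY : Y ∈ TT X C) : Yᶜ ∈ TT X C := by
  refine ⟨compl_mem hY.1, ?_⟩
  rw [compl_compl]
  exact hY.2.symm

lemma ka_mono (hX : HSys X) {Y Y' : Set G} (h : Y ⊆ Y') : ka X C Y ≤ ka X C Y' :=
  Set.ncard_le_ncard (fun _ hZ => ⟨hZ.1, hZ.2.trans h⟩) ((TT_finite C hX).subset (fun _ h => h.1))

lemma ka_le (hX : HSys X) (Y : Set G) : ka X C Y ≤ (TT X C).ncard :=
  Set.ncard_le_ncard (fun _ hZ => hZ.1) (TT_finite C hX)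

lemma eq_of_ka (hX : HSys X) {Y Y' : Set G} (hY' : Y' ∈ TT X C) (h : Y ⊆ Y')
    (hk : ka X C Y = ka X C Y') : Y = Y' := by
  by_contra hne
  have hfin : {Z ∈ TT X C | Z ⊆ Y'}.Finite := (TT_finite C hX).subset (fun _ h => h.1)
  have hss : {Z ∈ TT X C | Z ⊆ Y} ⊂ {Z ∈ TT X C | Z ⊆ Y'} := by
    refine ⟨fun Z hZ => ⟨hZ.1, hZ.2.trans h⟩, fun hcon => ?_⟩
    have := hcon (show Y' ∈ {Z ∈ TT X C | Z ⊆ Y'} from ⟨hY', subset_rfl⟩)
    exact hne (Set.Subset.antisymm h this.2)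
  have := Set.ncard_lt_ncard hss hfin
  unfold ka at hk
  omega

lemma ka_tr {c : G} (hc : c ∈ C) (Y : Set G) : ka X C (tr c Y) = ka X C Y := by
  unfold ka
  have : {Z ∈ TT X C | Z ⊆ tr c Y} = tr c '' {Z ∈ TT X C | Z ⊆ Y} := by
    ext Z
    constructor
    · rintro ⟨hZ, h⟩
      refine ⟨tr c⁻¹ Z, ⟨tr_TT C (C.inv_mem hc) hZ, ?_⟩, by rw [tr_tr, mul_inv_cancel, tr_one]⟩
      rw [tr_subset_iff', inv_inv]
      exact h
    · rintro ⟨Z, ⟨hZ, h⟩, rfl⟩
      exact ⟨tr_TT C hc hZ, tr_mono h⟩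
  rw [this]
  exact Set.ncard_image_of_injective _ (fun _ _ h => tr_inj.mp h)

lemma nu_mono (hX : HSys X) {Y Y' : Set G} (h : Y ⊆ Y') : nu X C Y ≤ nu X C Y' := by
  unfold nu
  gcongr
  · exact mu_mono C h
  · exact ka_mono C hX h

lemma nu_tr {c : G} (hc : c ∈ C) (Y : Set G) : nu X C (tr c Y) = nu X C Y := by
  unfold nu
  rw [mu_tr C hc, ka_tr C hc]

lemma nu_eq (hX : HSys X) {Y Y' : Set G} (h : nu X C Y = nu X C Y') :
    mu C Y = mu C Y' ∧ ka X C Y = ka X C Y' := by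
  unfold nu at h
  have h1 := ka_le C hX Y
  have h2 := ka_le C hX Y'
  set t := (TT X C).ncard
  have h3 : mu C Y = mu C Y' := by
    rcases lt_trichotomy (mu C Y) (mu C Y') with h' | h' | h'
    · nlinarith
    · exact h'
    · nlinarith
  refine ⟨h3, ?_⟩
  rw [h3] at h
  omega

end fix

theorem fix : S_FIX := by
  intro G _ X hX C hC
  by_cases hA : ∃ Y ∈ Hs X, nu X C Y = nu X C Yᶜ
  · obtain ⟨Y, hY, hYe⟩ := hA
    refine ⟨Y, hY, Or.inr ?_⟩
    obtain ⟨h1, h2⟩ := nu_eq C hX hYe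
    have hYT : Y ∈ TT X C := ⟨hY, h1⟩
    intro c hc
    rw [tr_image_mm]
    have hkt : ka X C (tr c Y) = ka X C Y := ka_tr C hc Y
    have hkt' : ka X C (tr c Y)ᶜ = ka X C Yᶜ := by rw [← tr_compl]; exact ka_tr C hc Yᶜ
    rcases nested_of_mem hX (tr_mem hY c) hY with h | h | h | h
    · rw [eq_of_ka C hX hYT h hkt]
    · rw [← eq_of_ka C hX (tr_TT C hc hYT) h hkt.symm]
    · rw [eq_of_ka C hX (compl_TT C hYT) h (hkt.trans h2), mm_compl]
    · have e := eq_of_ka C hX hYT h (hkt'.trans h2.symm)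
      calc mm X (tr c Y) = mm X (tr c Y)ᶜ := (mm_compl _).symm
        _ = mm X Y := by rw [e]
  · have hne : ∀ Y ∈ Hs X, nu X C Y ≠ nu X C Yᶜ := fun Y hY h => hA ⟨Y, hY, h⟩
    set O : Set (Set G) := {Y | Y ∈ Hs X ∧ nu X C Yᶜ < nu X C Y} with hO
    have hup : ∀ Y ∈ O, ∀ Y' ∈ Hs X, Y ⊆ Y' → Y' ∈ O := by
      intro Y hY Y' hY' h
      refine ⟨hY', ?_⟩
      calc nu X C Y'ᶜ ≤ nu X C Yᶜ := nu_mono C hX (Set.compl_subset_compl.mpr h)
        _ < nu X C Y := hY.2
        _ ≤ nu X C Y' := nu_mono C hX h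
    have hone : ∀ Y ∈ Hs X, Y ∉ O → Yᶜ ∈ O := by
      intro Y hY hYO
      refine ⟨compl_mem hY, ?_⟩
      rw [compl_compl]
      have := hne Y hY
      have h3 : ¬ nu X C Yᶜ < nu X C Y := fun h => hYO ⟨hY, h⟩
      omega
    have hnot : ∀ Y ∈ O, Yᶜ ∉ O := by
      intro Y hY hY'
      have h1 := hY.2
      have h2 := hY'.2
      rw [compl_compl] at h2
      omega
    have hmeet : ∀ Y ∈ O, ∃ c ∈ C, c ∈ Y := by
      intro Y hY
      apply pos_of_mu
      by_contra h0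
      have h0' : mu C Y = 0 := by omega
      have h1 := mu_add C Y
      have h2 := card_pos C
      have h3 : 1 ≤ mu C Yᶜ := by omega
      have h4 := hY.2
      unfold nu at h4
      rw [h0'] at h4
      have h5 := ka_le C hX Y
      nlinarith
    have hOinv : ∀ c ∈ C, ∀ Y ∈ O, tr c Y ∈ O := by
      intro c hc Y hY
      refine ⟨tr_mem hY.1 c, ?_⟩
      rw [← tr_compl, nu_tr C hc, nu_tr C hc]
      exact hY.2
    have hOimg : ∀ c ∈ C, tr c '' O = O := by
      intro c hc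
      apply Set.Subset.antisymm
      · rintro _ ⟨Y, hY, rfl⟩
        exact hOinv c hc Y hY
      · intro Y hY
        exact ⟨tr c⁻¹ Y, hOinv _ (C.inv_mem hc) Y hY, by rw [tr_tr, mul_inv_cancel, tr_one]⟩
    obtain ⟨Y₀, hY₀⟩ : O.Nonempty := by
      by_cases h : X ∈ O
      · exact ⟨X, h⟩
      · exact ⟨Xᶜ, hone X self_mem h⟩
    obtain ⟨b, hb⟩ := nonempty_of_mem hX (compl_mem hY₀.1)
    have hfin : {Y | Y ∈ O ∧ Y ⊆ Y₀}.Finite := by
      have : (⋃ c ∈ (C : Set G), {Y | Y ∈ Hs X ∧ c ∈ Y ∧ b ∉ Y}).Finite := by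
        apply Set.Finite.biUnion (finC C)
        intro c _
        exact fin_sep hX c b
      apply this.subset
      rintro Y ⟨hY, hYY⟩
      obtain ⟨c, hc, hcY⟩ := hmeet Y hY
      simp only [Set.mem_iUnion]
      exact ⟨c, hc, hY.1, hcY, fun h => hb (hYY h)⟩
    obtain ⟨Y, hYmin⟩ := hfin.exists_minimal ⟨Y₀, hY₀, subset_rfl⟩
    have hYO : Y ∈ O := hYmin.prop.1
    have hmin : ∀ Y' ∈ O, Y' ⊆ Y → Y ⊆ Y' := by
      intro Y' hY' h
      exact hYmin.le_of_le ⟨hY', h.trans hYmin.prop.2⟩ h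
    have hOeq : O = oo X Y := by
      apply Set.Subset.antisymm
      · intro Y' hY'
        refine ⟨hY'.1, ?_⟩
        rcases nested_of_mem hX hYO.1 hY'.1 with h | h | h | h
        · exact Or.inl h
        · exact Or.inl (hmin Y' hY' h)
        · exact absurd (hup Y hYO _ (compl_mem hY'.1) h) (hnot Y' hY')
        · refine Or.inr ⟨h, fun h' => ?_⟩
          have : Y' = Yᶜ := Set.Subset.antisymm h' h
          rw [this] at hY'
          exact hnot Y hYO hY'
      · rintro Y' ⟨hY', h | h⟩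
        · exact hup Y hYO Y' hY' h
        · by_contra hcon
          have h1 := hone Y' hY' hcon
          have h2 : Y'ᶜ ⊆ Y := Set.compl_subset_comm.mp h.1
          have h3 := hmin _ h1 h2
          exact h.2 (Set.subset_compl_comm.mp h3)
    refine ⟨Y, hYO.1, Or.inl ?_⟩
    intro c hc
    rw [← hOeq]
    exact hOimg c hc

end Pool.Agent.W402.LR
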