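import Pool.Agent.W393.LR.Stmts

set_option autoImplicit false

namespace Pool.Agent.W402.LR

open Pool.Agent.W393.LR

theorem mhg (hM : S_MH) (hR : S_RES) (hC : S_COIND) : S_MHG := by
  intro G _ N H hNn hNf hN hHfg
  let φ : N ≃* FreeGroup (IsFreeGroup.Generators N) := IsFreeGroup.toFreeGroup N
  have hfg : Group.FG H := (Group.fg_iff_subgroup_fg H).mpr hHfg
  let g : N.subgroupOf H →* FreeGroup (IsFreeGroup.Generators N) :=
    φ.toMonoidHom.comp ((H.subtype.comp (N.subgroupOf H).subtype).codRestrict N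
      (fun x => Subgroup.mem_subgroupOf.mp x.2))
  have hgfg : g.range.FG := (Group.fg_iff_subgroup_fg _).mp (Group.fg_range g)
  have hg : ∀ n : N, φ n ∈ g.range ↔ (n : G) ∈ H := by
    intro n
    constructor
    · rintro ⟨x, hx⟩
      have h1 := φ.injective hx
      rw [← h1]
      exact (x : H).2
    · intro hn
      exact ⟨⟨⟨n, hn⟩, Subgroup.mem_subgroupOf.mpr n.2⟩, rfl⟩
  obtain ⟨N₁, hN₁f, hMN₁, hsep⟩ := hM _ g.range hgfg
  let P : Subgroup G := (N₁.comap φ.toMonoidHom).map N.subtype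
  have hPN : P ≤ N := by
    rintro _ ⟨x, -, rfl⟩
    exact x.2
  have hPmem : ∀ n : N, (n : G) ∈ P → φ n ∈ N₁ := by
    rintro n ⟨x, hx, hxn⟩
    have : x = n := Subtype.ext hxn
    rw [← this]; exact hx
  have hPf : P.FiniteIndex := by
    constructor
    rw [Subgroup.index_map_subtype, Subgroup.index_comap_of_surjective _ φ.surjective]
    exact mul_ne_zero hN₁f.index_ne_zero hNf.index_ne_zero
  let N₂ : Subgroup G := P.normalCore
  have hN₂P : N₂ ≤ P := P.normalCore_le
  have hN₂N : N₂ ≤ N := hN₂P.trans hPN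
  have hN₂f : N₂.FiniteIndex := inferInstance
  have hN₂n : N₂.Normal := inferInstance
  refine ⟨N₂, hN₂N, hN₂f, fun h _ n hn => hN₂n.conj_mem n hn h, ?_⟩
  set K : Subgroup G := N₂ ⊔ H with hK
  have htop : N₂.subgroupOf K ⊔ H.subgroupOf K = ⊤ := by
    rw [← Subgroup.subgroupOf_sup le_sup_left le_sup_right]
    exact Subgroup.subgroupOf_self K
  refine hC K (N₂.subgroupOf K) (H.subgroupOf K) inferInstance inferInstance htop ?_
  have hmemN : ∀ x : N₂.subgroupOf K, ((x : K) : G) ∈ N := fun x =>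
    hN₂N (Subgroup.mem_subgroupOf.mp x.2)
  let f : N₂.subgroupOf K →* N₁ :=
    (φ.toMonoidHom.comp ((K.subtype.comp (N₂.subgroupOf K).subtype).codRestrict N hmemN)).codRestrict
      N₁ (fun x => hPmem _ (hN₂P (Subgroup.mem_subgroupOf.mp x.2)))
  have hf : Function.Injective f := by
    intro x y hxy
    have h1 := congrArg (fun z : N₁ => (z : FreeGroup (IsFreeGroup.Generators N))) hxy
    have h2 := φ.injective h1
    have h3 := congrArg (fun z : N => (z : G)) h2
    exact Subtype.ext (Subtype.ext h3)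
  have hfin := hR N₁ (N₂.subgroupOf K) f (g.range.subgroupOf N₁) hf hsep
  have heq : (g.range.subgroupOf N₁).comap f = (H.subgroupOf K).subgroupOf (N₂.subgroupOf K) := by
    ext x
    exact hg ⟨((x : K) : G), hmemN x⟩
  rwa [heq] at hfin

end Pool.Agent.W402.LR
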