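import Pool.Agent.W393.LR.Stmts

set_option autoImplicit false

namespace Pool.Agent.W402.LR

open Pool.Agent.W393.LR

lemma torsionFree_of_free {N : Type} [Group N] (hN : IsFreeGroup N) {z : N}
    (hz : IsOfFinOrder z) : z = 1 := by
  have e := IsFreeGroup.toFreeGroup N
  have h1 : IsOfFinOrder (e z) := by
    have := e.toMonoidHom.isOfFinOrder hz
    exact this
  have h2 : e z = 1 := (isOfFinOrder_iff_eq_one (e z)).mp h1
  exact (MulEquiv.map_eq_one_iff e).mp h2

theorem finh : S_FINH := by
  intro G _ N H hNn hNf hN hH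
  have hdisj : ∀ x, x ∈ N → x ∈ H → x = 1 := by
    intro x hx hxH
    have h1 : IsOfFinOrder (⟨x, hxH⟩ : H) := isOfFinOrder_of_finite _
    have h2 : IsOfFinOrder x := by
      have := H.subtype.isOfFinOrder h1
      exact this
    have h3 : IsOfFinOrder (⟨x, hx⟩ : N) := by
      rwa [← Submonoid.isOfFinOrder_coe] at *
    have := torsionFree_of_free hN h3
    exact congrArg Subtype.val this
  set π := QuotientGroup.mk' N with hπ
  have hinj : Function.Injective (π.subgroupMap H) := by
    rintro ⟨x, hx⟩ ⟨y, hy⟩ hxy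
    have h1 : (QuotientGroup.mk x : G ⧸ N) = QuotientGroup.mk y := congrArg Subtype.val hxy
    have h2 := QuotientGroup.eq.mp h1
    have h3 := hdisj _ h2 (H.mul_mem (H.inv_mem hx) hy)
    exact Subtype.ext (inv_mul_eq_one.mp h3)
  let e : H ≃* H.map π := MulEquiv.ofBijective (π.subgroupMap H)
    ⟨hinj, π.subgroupMap_surjective H⟩
  have hKle : N ⊔ H ≤ (H.map π).comap π := by
    apply sup_le
    · intro n hn
      change π n ∈ H.map π
      have : π n = 1 := (QuotientGroup.eq_one_iff n).mpr hn
      rw [this]; exact one_mem _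
    · intro h hh
      exact ⟨h, hh, rfl⟩
  let f : (N ⊔ H : Subgroup G) →* H.map π :=
    (π.comp (N ⊔ H : Subgroup G).subtype).codRestrict (H.map π) (fun k => hKle k.2)
  refine ⟨N ⊔ H, Subgroup.finiteIndex_of_le le_sup_left, le_sup_right,
    H.subtype.comp (e.symm.toMonoidHom.comp f), fun k => (e.symm (f k)).2, ?_⟩
  intro h hk hh
  change ((e.symm (f ⟨h, hk⟩) : H) : G) = h
  have : f ⟨h, hk⟩ = e ⟨h, hh⟩ := rfl
  rw [this, e.symm_apply_apply]

lemma extW_mul {H J : Type} [Group H] (h h' : H) (w w' : Wr H J) :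
    extW (h * h') (w * w') = extW h w * extW h' w' := by
  refine Wr.ext ?_ ?_
  · ext i : 1
    cases i with
    | none => rfl
    | some i => rfl
  · funext i
    cases i with
    | none => rfl
    | some i => rfl

theorem nh (hCP : S_CPALL) (hI : S_INF) : S_NH := by
  intro G _ N H hNn hNf hN hHfg hHinf hNH hsep
  let q : H →* G ⧸ N := (QuotientGroup.mk' N).comp H.subtype
  have hker : ∀ x : q.ker, ((x : H) : G) ∈ N := fun x => (QuotientGroup.eq_one_iff _).mp x.2
  have hfree : IsFreeGroup q.ker := by
    let i : q.ker →* N := (H.subtype.comp q.ker.subtype).codRestrict N hker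
    have hi : Function.Injective i := by
      intro x y hxy
      apply Subtype.ext
      apply Subtype.ext
      have h3 := congrArg (fun z : N => (z : G)) hxy
      exact h3
    exact IsFreeGroup.ofMulEquiv (MonoidHom.ofInjective hi).symm
  have hfg : Group.FG H := (Group.fg_iff_subgroup_fg H).mpr hHfg
  obtain ⟨J, hJ, π, θ, hθ⟩ := hCP H (G ⧸ N) q inferInstance hfree hfg
  classical
  let θ' : G → Wr H (Option J) := fun g => if h : g ∈ H then extW ⟨g, h⟩ (θ ⟨g, h⟩) else 1
  have hθ' : ∀ (g : G) (h : g ∈ H), θ' g = extW ⟨g, h⟩ (θ ⟨g, h⟩) := fun g h => dif_pos h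
  have hhom : HomOn H θ' := by
    intro x hx y hy
    rw [hθ' x hx, hθ' y hy, hθ' _ (H.mul_mem hx hy), ← extW_mul, ← map_mul]
    rfl
  obtain ⟨Θ, hΘ, -⟩ := hI G N H hNn hNf hN hHfg hHinf hNH hsep (Wr H (Option J))
    (π.comp (QuotientGroup.mk' N)) θ' hhom (by
      intro C hC hCH
      have : Finite (C.subgroupOf H) := by
        have e := Subgroup.subgroupOfEquivOfLe hCH
        exact Finite.of_equiv _ e.symm.toEquiv
      obtain ⟨ε, hε⟩ := hθ (C.subgroupOf H) this
      refine ⟨ε, fun c hc => ?_⟩
      rw [hθ' c (hCH hc)]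
      exact hε ⟨c, hCH hc⟩ hc)
  let s : G →* Equiv.Perm (Option J) :=
    { toFun := fun g => (Θ g).σ
      map_one' := by rw [map_one]; rfl
      map_mul' := fun x y => by rw [map_mul]; rfl }
  let K : Subgroup G :=
    { carrier := {g | (Θ g).σ none = none}
      one_mem' := by
        change (Θ 1).σ none = none
        rw [map_one]; rfl
      mul_mem' := by
        intro a b ha hb
        change (Θ a).σ none = none at ha
        change (Θ b).σ none = none at hb
        change (Θ (a * b)).σ none = none
        rw [map_mul, Wr.mul_σ, Equiv.Perm.mul_apply, hb, ha]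
      inv_mem' := by
        intro a ha
        change (Θ a).σ none = none at ha
        change (Θ a⁻¹).σ none = none
        rw [map_inv, Wr.inv_σ, Equiv.Perm.inv_eq_iff_eq]
        exact ha.symm }
  have hsK : s.ker ≤ K := by
    intro g hg
    have : (Θ g).σ = 1 := hg
    change (Θ g).σ none = none
    rw [this]; rfl
  have hKf : K.FiniteIndex := by
    have : Finite (Equiv.Perm (Option J)) := inferInstance
    have : s.ker.FiniteIndex := Subgroup.finiteIndex_ker s
    exact Subgroup.finiteIndex_of_le hsK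
  have hval : ∀ (h : G) (hh : h ∈ H), Θ h = extW ⟨h, hh⟩ (θ ⟨h, hh⟩) := by
    intro h hh
    rw [hΘ h hh, hθ' h hh]
  refine ⟨K, hKf, ?_, ?_⟩
  · intro h hh
    change (Θ h).σ none = none
    rw [hval h hh]; rfl
  · refine ⟨{ toFun := fun k => (((Θ k).f none : H) : G)
              map_one' := by rw [OneMemClass.coe_one, map_one]; rfl
              map_mul' := ?_ }, fun k => ((Θ k).f none).2, ?_⟩
    · intro x y
      have hy : (Θ (y : G)).σ none = none := y.2
      rw [Subgroup.coe_mul, map_mul, Wr.mul_f, hy, Subgroup.coe_mul]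
    · intro h hk hh
      change (((Θ h).f none : H) : G) = h
      rw [hval h hh]; rfl

end Pool.Agent.W402.LR
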